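import Pool.Agent.helper28.PV.SpecS

/-!
# Project pv, row SUB: closed star subalgebras of `C(X)` are algebras of functions on quotients
-/

set_option autoImplicit false

open scoped Matrix Topology
open Filter

namespace Pool.Agent.PV

open Pool.Agent.CZ

/-- a dense sequence in `R` -/
theorem SUB_seq (X : Type) [TopologicalSpace X] [CompactSpace X] [TopologicalSpace.MetrizableSpace X]
    (R : StarSubalgebra ℂ C(X, ℂ)) : ∃ r : ℕ → R, DenseRange r := by
  let _ := TopologicalSpace.metrizableSpaceMetric X
  have : SecondCountableTopology X := inferInstance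
  have : SecondCountableTopology C(X, ℂ) := inferInstance
  have : SecondCountableTopology R := TopologicalSpace.Subtype.secondCountableTopology _
  have : TopologicalSpace.SeparableSpace R := inferInstance
  have : Nonempty R := ⟨0⟩
  exact TopologicalSpace.exists_dense_seq R

/-- the map to the sequences -/
noncomputable def SUB_f {X : Type} [TopologicalSpace X] {R : StarSubalgebra ℂ C(X, ℂ)} (r : ℕ → R) (x : X) : ℕ → ℂ :=
  fun n => (r n : C(X, ℂ)) x

theorem SUB_cont {X : Type} [TopologicalSpace X] {R : StarSubalgebra ℂ C(X, ℂ)} (r : ℕ → R) :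
    Continuous (SUB_f r) :=
  continuous_pi fun n => (r n : C(X, ℂ)).continuous

/-- points with equal image are not separated by `R` -/
theorem SUB_sep {X : Type} [TopologicalSpace X] [CompactSpace X] {R : StarSubalgebra ℂ C(X, ℂ)} {r : ℕ → R}
    (hr : DenseRange r) {x x' : X} (h : SUB_f r x = SUB_f r x') (g : R) :
    (g : C(X, ℂ)) x = (g : C(X, ℂ)) x' := by
  have hc : IsClosed {g : R | (g : C(X, ℂ)) x = (g : C(X, ℂ)) x'} := by
    apply isClosed_eq
    · exact (continuous_eval_const x).comp continuous_subtype_val
    · exact (continuous_eval_const x').comp continuous_subtype_val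
  exact hr.induction_on g hc fun n => congrFun h n

/-- **SUB** -/
theorem SUB : SUB_stmt := by
  intro X _ _ _ R hR
  obtain ⟨r, hr⟩ := SUB_seq X R
  have hcont := SUB_cont r
  have hcomp : CompactSpace (Set.range (SUB_f r)) := isCompact_iff_compactSpace.1 (isCompact_range hcont)
  refine ⟨Set.range (SUB_f r), inferInstance, hcomp, inferInstance,
    ⟨fun x => ⟨SUB_f r x, x, rfl⟩, hcont.subtype_mk _⟩, ?_, ?_⟩
  · rintro ⟨y, x, rfl⟩
    exact ⟨x, rfl⟩
  · intro g
    set p : C(X, Set.range (SUB_f r)) := ⟨fun x => ⟨SUB_f r x, x, rfl⟩, hcont.subtype_mk _⟩ with hp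
    have hps : Function.Surjective p := by
      rintro ⟨y, x, rfl⟩
      exact ⟨x, rfl⟩
    constructor
    · intro hg
      have hq : Topology.IsQuotientMap p := (p.continuous.isClosedMap).isQuotientMap p.continuous hps
      have hfac : Function.FactorsThrough g p := by
        intro x x' hxx
        have h1 : SUB_f r x = SUB_f r x' := congrArg Subtype.val hxx
        exact SUB_sep hr h1 ⟨g, hg⟩
      exact ⟨hq.lift g hfac, hq.lift_comp g hfac⟩
    · rintro ⟨h, rfl⟩
      set A : StarSubalgebra ℂ C(Set.range (SUB_f r), ℂ) :=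
        R.comap (ContinuousMap.compStarAlgHom' ℂ ℂ p) with hA
      have hmem : ∀ f : C(Set.range (SUB_f r), ℂ), f ∈ A ↔ f.comp p ∈ R := fun f => Iff.rfl
      have hAc : IsClosed (A : Set C(Set.range (SUB_f r), ℂ)) := by
        have : (A : Set C(Set.range (SUB_f r), ℂ)) = (fun f => f.comp p) ⁻¹' (R : Set C(X, ℂ)) := rfl
        rw [this]
        exact hR.preimage (ContinuousMap.continuous_precomp p)
      have hsep : A.SeparatesPoints := by
        intro y y' hyy
        have h1 : (y : ℕ → ℂ) ≠ (y' : ℕ → ℂ) := fun h => hyy (Subtype.ext h)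
        obtain ⟨n, hn⟩ := Function.ne_iff.mp h1
        refine ⟨fun z => (z : ℕ → ℂ) n, ⟨⟨fun z => (z : ℕ → ℂ) n,
          (continuous_apply n).comp continuous_subtype_val⟩, ?_, rfl⟩, hn⟩
        show _ ∈ A
        rw [hmem]
        exact (r n).2
      have htop := ContinuousMap.starSubalgebra_topologicalClosure_eq_top_of_separatesPoints A hsep
      have hle : A.topologicalClosure ≤ A := StarSubalgebra.topologicalClosure_minimal le_rfl hAc
      rw [htop] at hle
      exact (hmem h).1 (hle (StarSubalgebra.mem_top))

end Pool.Agent.PV
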