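import Pool.Agent.helper45.PV.SpecG

/-!
# Project pv, row LOP: loops
-/

set_option autoImplicit false

open scoped Matrix Topology

namespace Pool.Agent.PV

open Pool.Agent.CZ

theorem LOP_iff (s t : ℝ) : ((s : ℝ) : UnitAddCircle) = ((t : ℝ) : UnitAddCircle) ↔ ∃ n : ℤ, (n : ℝ) = s - t := by
  rw [← sub_eq_zero, ← AddCircle.coe_sub, AddCircle.coe_eq_zero_iff]
  simp

theorem LOP_surj : Function.Surjective qI := by
  intro x
  obtain ⟨r, rfl⟩ := QuotientAddGroup.mk_surjective x
  refine ⟨⟨Int.fract r, Int.fract_nonneg r, (Int.fract_lt_one r).le⟩, ?_⟩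
  show ((Int.fract r : ℝ) : UnitAddCircle) = ((r : ℝ) : UnitAddCircle)
  rw [LOP_iff]
  exact ⟨-⌊r⌋, by push_cast; rw [Int.fract]; ring⟩

theorem LOP : LOP_stmt := by
  intro Z _ p hp
  have hq : Topology.IsQuotientMap qI := (qI.continuous.isClosedMap).isQuotientMap qI.continuous LOP_surj
  have hfac : Function.FactorsThrough p qI := by
    intro s t hst
    have h1 : ((s : ℝ) : UnitAddCircle) = ((t : ℝ) : UnitAddCircle) := hst
    rw [LOP_iff] at h1
    obtain ⟨n, hn⟩ := h1
    obtain ⟨s, hs0, hs1⟩ := s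
    obtain ⟨t, ht0, ht1⟩ := t
    simp only at hn
    have h2 : (-1 : ℝ) ≤ n := by linarith
    have h3 : (n : ℝ) ≤ 1 := by linarith
    have h2' : (-1 : ℤ) ≤ n := by exact_mod_cast h2
    have h3' : n ≤ (1 : ℤ) := by exact_mod_cast h3
    have h4 : n = -1 ∨ n = 0 ∨ n = 1 := by omega
    rcases h4 with rfl | rfl | rfl
    · push_cast at hn
      have e1 : s = 0 := by linarith
      have e2 : t = 1 := by linarith
      subst e1; subst e2
      exact hp
    · push_cast at hn
      have e1 : s = t := by linarith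
      subst e1
      rfl
    · push_cast at hn
      have e1 : s = 1 := by linarith
      have e2 : t = 0 := by linarith
      subst e1; subst e2
      exact hp.symm
  refine ⟨hq.lift p hfac, fun s => ?_⟩
  have := hq.lift_comp p hfac
  exact DFunLike.congr_fun this s

end Pool.Agent.PV
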