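import Pool.Agent.helper77.PV.SpecB

/-!
# Project pv, row INA: the index is invariant
-/

set_option autoImplicit false

open scoped Matrix Topology
open Filter

namespace Pool.Agent.PV

open Pool.Agent.CZ

attribute [local instance] Matrix.linftyOpNormedRing Matrix.linftyOpNormedAlgebra

/-- `k0map` on classes -/
theorem INA_k0map {A B : Type} [Ring A] [Ring B] (φ : A →+* B) {ι : Type} [Fintype ι]
    (e : Matrix ι ι A) (he : e * e = e) (he' : e.map φ * e.map φ = e.map φ) :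
    k0map φ (k0 e he) = k0 (e.map φ) he' := by
  show (QuotientAddGroup.mk (FreeAbelianGroup.map (imap φ) (FreeAbelianGroup.of _)) : K0 B) = _
  rw [FreeAbelianGroup.map_of_apply]
  rfl

/-- `k0` does not depend on the proof -/
theorem INA_congr {A : Type} [Ring A] {ι : Type} [Fintype ι] {e f : Matrix ι ι A} (h : e = f)
    (he : e * e = e) (hf : f * f = f) : k0 e he = k0 f hf := by
  subst h
  rfl

/-- the algebra of the claim -/
theorem INA_alg (hK0E : K0E_stmt) (hK0S : K0S_stmt) {B : Type} [Ring B] {κ : Type} [Fintype κ] [DecidableEq κ]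
    (al : B ≃+* B) (a b b' r0 r1 q q' : Matrix κ κ B) (hbb : b'.map al = b) (hq : q = r1 * b')
    (hq' : q' = b * r1.map al) (qq : q * q = q) (qq' : q' * q' = q') (r0a : r0 * a = 1 - q)
    (ar0 : a * r0 = 1 - q') (hm : q.map (al : B →+* B) * q.map (al : B →+* B) = q.map (al : B →+* B)) :
    k0 (q.map (al : B →+* B)) hm = k0 q qq := by
  have i1 : (1 - q) * (1 - q) = 1 - q := by
    rw [sub_mul, mul_sub, mul_sub, qq]; simp
  have i2 : (1 - q') * (1 - q') = 1 - q' := by
    rw [sub_mul, mul_sub, mul_sub, qq']; simp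
  have h1 : k0 (1 - q) i1 = k0 (1 - q') i2 := hK0E B κ κ _ _ i1 i2 r0 a r0a ar0
  have s1 : (q + (1 - q)) * (q + (1 - q)) = q + (1 - q) := by simp
  have s2 : (q' + (1 - q')) * (q' + (1 - q')) = q' + (1 - q') := by simp
  have h2 : k0 (q + (1 - q)) s1 = k0 q qq + k0 (1 - q) i1 :=
    hK0S B κ q (1 - q) qq i1 s1 (by rw [mul_sub, qq]; simp) (by rw [sub_mul, qq]; simp)
  have h3 : k0 (q' + (1 - q')) s2 = k0 q' qq' + k0 (1 - q') i2 :=
    hK0S B κ q' (1 - q') qq' i2 s2 (by rw [mul_sub, qq']; simp) (by rw [sub_mul, qq']; simp)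
  have h4 : k0 (q + (1 - q)) s1 = k0 (q' + (1 - q')) s2 := INA_congr (by simp) _ _
  have h5 : k0 q qq = k0 q' qq' := by
    rw [h2, h3, h1] at h4
    exact add_right_cancel h4
  rw [h5]
  -- q.map al and q' by K0E
  have hx : r1.map (al : B →+* B) * b'.map (al : B →+* B) = q.map (al : B →+* B) := by
    rw [hq, Matrix.map_mul]
  have hy : b'.map (al : B →+* B) * r1.map (al : B →+* B) = q' := by
    rw [hq', ← hbb]; rfl
  exact hK0E B κ κ _ _ hm qq' _ _ hx hy

/-- **INA** -/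
theorem INA (hQDM : QDM_stmt) (hK0E : K0E_stmt) (hK0S : K0S_stmt) (hK0B : K0B_stmt)
    (hFUN : FUN_stmt) : INA_stmt := by
  intro B A _ _ _ _ _ _ al io u c hZ ι _ _ g z hz
  obtain ⟨N, d, x, L, h, hd, hx, hnorm, hL, rfl⟩ := hz
  have hQ := hQDM B A al io u c hZ (Fin d × ι) (aL d x) (bL d x) L hL
  have hm : (qL al c (bL d x) L).map ((al : B →ₐ[ℂ] B).toRingHom) *
      (qL al c (bL d x) L).map ((al : B →ₐ[ℂ] B).toRingHom) =
      (qL al c (bL d x) L).map ((al : B →ₐ[ℂ] B).toRingHom) := by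
    rw [← Matrix.map_mul, h]
  rw [k0a, map_sub, map_nsmul, hFUN.2.2.1, INA_k0map _ _ h hm]
  congr 1
  exact INA_alg hK0E hK0S al.toRingEquiv (aL d x) (bL d x) ((bL d x).map al.symm) (rL c L 0)
    (rL c L (-1)) (qL al c (bL d x) L) (qL' al c (bL d x) L)
    (by ext i j; simp) rfl rfl h hQ.qq' hQ.r0a hQ.ar0 hm

end Pool.Agent.PV
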